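import Pool.Agent.U840.SY.Curve

/-!
# Sums of twists: blow-ups and projective bundles
-/

set_option autoImplicit false

open CategoryTheory AlgebraicGeometry

universe u v w

namespace Pool.Agent.U840.SY

open Pool.Agent.H914 Pool.Agent.H914.VarClass Pool.Agent.H914.VarClass.Obj Pool.Agent.W492.BB
  Pool.Agent.W550.Corr Pool.Agent.TH133 Pool.Agent.Y107 Pool.Agent.Q73.LS

set_option linter.unusedSectionVars false

variable {k : Type u} [Field k] {𝒱 : VarClass k}

section chow

variable {C : TheoryData.{u, v, 0} 𝒱 ℚ} [hC : IsChowProj C] {X Y Z : 𝒱.Obj} {T : Type} [Fintype T]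
  {W : T → 𝒱.Obj} {R : T → Finset ℕ} {a : ∀ t, ℕ → C.A (Z.prod (W t))}
  {b : ∀ t, ℕ → C.A ((W t).prod Z)}

/-- `∑ b (τ r) ∘ x r ∘ a r` -/
noncomputable def tw (R : T → Finset ℕ) (a : ∀ t, ℕ → C.A (Z.prod (W t)))
    (b : ∀ t, ℕ → C.A ((W t).prod Z)) (x : ∀ t, ℕ → C.A ((W t).prod (W t))) (τ : T → ℕ → ℕ) :
    C.A (Z.prod Z) :=
  ∑ t, ∑ r ∈ R t, C.comp (C.comp (a t r) (x t r)) (b t (τ t r))

include hC

lemma tw_comp (h : IsTwistSum C Z W R a b) (x y : ∀ t, ℕ → C.A ((W t).prod (W t)))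
    (ρ τ : T → ℕ → ℕ) (hρ : ∀ t, ∀ r ∈ R t, ρ t r ∈ R t) :
    C.comp (tw R a b x ρ) (tw R a b y τ) =
      tw R a b (fun t r => C.comp (x t r) (y t (ρ t r))) (fun t r => τ t (ρ t r)) := by
  classical
  have key : ∀ t t' r r', C.comp (C.comp (C.comp (a t r) (x t r)) (b t (ρ t r)))
      (C.comp (C.comp (a t' r') (y t' r')) (b t' (τ t' r'))) =
      C.comp (C.comp (C.comp (a t r) (x t r)) (C.comp (b t (ρ t r)) (a t' r')))
        (C.comp (y t' r') (b t' (τ t' r'))) := by
    intro t t' r r'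
    simp only [comp_assoc C]
  unfold tw
  rw [sum_comp]
  apply Finset.sum_congr rfl
  intro t _
  rw [sum_comp]
  apply Finset.sum_congr rfl
  intro r hr
  rw [comp_sum]
  simp_rw [comp_sum, key]
  rw [Finset.sum_eq_single t]
  · rw [Finset.sum_eq_single (ρ t r)]
    · rw [h.same t _ (hρ t r hr), comp_dg]
      simp only [comp_assoc C]
    · intro r' hr' hne
      rw [h.orth t t _ (hρ t r hr) r' hr' (fun _ => hne.symm), comp_zero, zero_comp]
    · intro h1
      exact absurd (hρ t r hr) h1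
  · intro t' _ hne
    apply Finset.sum_eq_zero
    intro r' hr'
    rw [h.orth t t' _ (hρ t r hr) r' hr' (fun e => absurd e.symm hne), comp_zero, zero_comp]
  · intro h1
    exact absurd (Finset.mem_univ t) h1

lemma tw_congr {x y : ∀ t, ℕ → C.A ((W t).prod (W t))} {ρ τ : T → ℕ → ℕ}
    (h : ∀ t, ∀ r ∈ R t, x t r = y t r ∧ ρ t r = τ t r) : tw R a b x ρ = tw R a b y τ := by
  unfold tw
  apply Finset.sum_congr rfl
  intro t _
  apply Finset.sum_congr rfl
  intro r hr
  rw [(h t r hr).1, (h t r hr).2]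

lemma tw_zero {x : ∀ t, ℕ → C.A ((W t).prod (W t))} {ρ : T → ℕ → ℕ}
    (h : ∀ t, ∀ r ∈ R t, x t r = 0) : tw R a b x ρ = 0 := by
  unfold tw
  apply Finset.sum_eq_zero
  intro t _
  apply Finset.sum_eq_zero
  intro r hr
  rw [h t r hr, comp_zero, zero_comp]

lemma tw_mem (h : IsTwistSum C Z W R a b) {x : ∀ t, ℕ → C.A ((W t).prod (W t))} {ρ : T → ℕ → ℕ}
    {s : ℤ} (hρ : ∀ t, ∀ r ∈ R t, ρ t r ∈ R t)
    (hx : ∀ t, ∀ r ∈ R t, x t r ∈ C.gr ((W t).prod (W t)) ((W t).dim + (s + r - ρ t r))) :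
    tw R a b x ρ ∈ C.gr (Z.prod Z) (Z.dim + s) := by
  unfold tw
  refine Submodule.sum_mem _ fun t _ => Submodule.sum_mem _ fun r hr => ?_
  have h1 : a t r ∈ C.gr (Z.prod (W t)) ((Z.dim : ℤ) + -r) := by
    rw [← sub_eq_add_neg]; exact h.deg_a t r hr
  have h2 := comp_mem C (comp_mem C h1 (hx t r hr)) (h.deg_b t _ (hρ t r hr))
  have e : (Z.dim : ℤ) + (-(r : ℤ) + (s + r - ρ t r) + (ρ t r : ℤ)) = Z.dim + s := by ring
  rw [e] at h2
  exact h2

end chow

section weil

variable {C : TheoryData.{u, v, 0} 𝒱 ℚ} [hC : IsChowProj C] {K : Type w} [Field K]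
  {H : WeilTheoryData.{u, v, w} C K} [hH : IsWeilProj H] {X Y Z : 𝒱.Obj} {T : Type} [Fintype T]
  {W : T → 𝒱.Obj} {R : T → Finset ℕ} {a : ∀ t, ℕ → C.A (Z.prod (W t))}
  {b : ∀ t, ℕ → C.A ((W t).prod Z)}

include hC hH

lemma actH_gr {e m : ℤ} {Γ : C.A (X.prod Y)} (hΓ : Γ ∈ C.gr (X.prod Y) (X.dim + e)) {x : H.A X}
    (hx : x ∈ H.gr X m) : H.act (H.cl Γ) x ∈ H.gr Y (m + 2 * e) := by
  rw [TheoryData.act_apply]
  have h := H.push_mem (snd X Y) (H.mul_mem (H.cl_mem hΓ) (H.pull_mem (fst X Y) hx))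
  have e1 : 2 * ((X.dim : ℤ) + e) + m + 2 * ((Y.dim : ℤ) - ((X.prod Y).dim : ℤ)) = m + 2 * e := by
    rw [dim_prod]; push_cast; ring
  rwa [e1] at h

/-- Sums of twists of varieties with symmetric Chow-Kunneth decompositions. -/
theorem hasSymmetricCK_sum (h : IsTwistSum C Z W R a b) (hW : ∀ t, HasSymmetricCK H (W t)) :
    HasSymmetricCK H Z := by
  classical
  choose π w hπ hs using hW
  let p : ℕ → C.A (Z.prod Z) := fun i => tw R a b (fun t r => sh (π t) (2 * r) i) (fun _ r => r)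
  let q : ℕ → C.A (Z.prod Z) := fun i =>
    tw R a b (fun t r => sh (w t) (2 * r) i) (fun t r => Z.dim - (W t).dim - r)
  have hid : ∀ t, ∀ r ∈ R t, (fun (_ : T) (r : ℕ) => r) t r ∈ R t := fun t r hr => hr
  have hσ : ∀ t, ∀ r ∈ R t, (fun (t : T) (r : ℕ) => Z.dim - (W t).dim - r) t r ∈ R t :=
    fun t r hr => (h.symm t r hr).2
  have hp : ∀ i j, C.comp (p i) (p j) = if i = j then p i else 0 := by
    intro i j
    simp only [p]
    rw [tw_comp h _ _ _ _ hid]
    split_ifs with hij
    · subst hij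
      exact tw_congr fun t r hr => ⟨by rw [sh_comp (hπ t), if_pos rfl], rfl⟩
    · exact tw_zero fun t r hr => by rw [sh_comp (hπ t), if_neg hij]
  have hact : ∀ (i : ℕ) (m : ℤ) (x : H.A Z), x ∈ H.gr Z m →
      H.act (H.cl (p i)) x = if m = i then x else 0 := by
    intro i m x hx
    have h1 : H.act (H.cl (p i)) x = ∑ t, ∑ r ∈ R t,
        H.act (H.cl (b t r)) (H.act (H.cl (sh (π t) (2 * r) i)) (H.act (H.cl (a t r)) x)) := by
      simp only [p, tw]
      rw [map_sum, act_sum]
      apply Finset.sum_congr rfl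
      intro t _
      rw [map_sum, act_sum]
      apply Finset.sum_congr rfl
      intro r _
      rw [actH_comp, actH_comp]
    have h2 : ∀ t, ∀ r ∈ R t, H.act (H.cl (sh (π t) (2 * r) i)) (H.act (H.cl (a t r)) x) =
        if m = i then H.act (H.cl (a t r)) x else 0 := by
      intro t r hr
      have h3 : a t r ∈ C.gr (Z.prod (W t)) ((Z.dim : ℤ) + -r) := by
        rw [← sub_eq_add_neg]; exact h.deg_a t r hr
      rw [sh_act (hπ t) _ _ _ (actH_gr h3 hx)]
      by_cases hm : m = i
      · rw [if_pos hm, if_pos (by push_cast; omega)]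
      · rw [if_neg hm, if_neg (by push_cast; omega)]
    rw [h1]
    split_ifs with hm
    · have h4 : H.act (H.cl (dg C Z)) x = x := actH_dg H x
      rw [← h.sum, map_sum, act_sum] at h4
      conv_rhs => rw [← h4]
      apply Finset.sum_congr rfl
      intro t _
      rw [map_sum, act_sum]
      apply Finset.sum_congr rfl
      intro r hr
      rw [h2 t r hr, if_pos hm, actH_comp]
    · apply Finset.sum_eq_zero
      intro t _
      apply Finset.sum_eq_zero
      intro r hr
      rw [h2 t r hr, if_neg hm, H.act_map_zero]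
  have hsh : ∀ t, ∀ r ∈ R t, ∀ i, 2 * Z.dim < i → 2 * (W t).dim + 2 * r < i := by
    intro t r hr i hi
    have := (h.symm t r hr).1
    omega
  have hck : IsCK H Z p := by
    refine ⟨?_, ?_, ?_, ?_, ?_, ?_, ?_⟩
    · intro i
      have h1 := tw_mem (s := 0) h (x := fun t r => sh (π t) (2 * r) i) hid (fun t r hr => by
        have h2 := sh_mem (hπ t) (2 * r) i
        have e : ((W t).dim : ℤ) + (0 + (r : ℤ) - (r : ℤ)) = (W t).dim := by ring
        rw [e]; exact h2)
      rw [add_zero] at h1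
      exact h1
    · intro i hi
      exact tw_zero fun t r hr => sh_out (hπ t) _ _ (hsh t r hr i hi)
    · intro i
      rw [hp, if_pos rfl]
    · intro i j hij
      rw [hp, if_neg hij]
    · rw [← h.sum]
      simp only [p, tw]
      rw [Finset.sum_comm]
      apply Finset.sum_congr rfl
      intro t _
      rw [Finset.sum_comm]
      apply Finset.sum_congr rfl
      intro r hr
      rw [← sum_comp, ← comp_sum, sh_sum (hπ t) (2 * r) (2 * Z.dim + 1) (by
        have := (h.symm t r hr).1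
        omega), comp_dg]
    · intro i x hx
      rw [hact i i x hx, if_pos rfl]
    · intro i m x hm hx
      rw [hact i m x hx, if_neg hm]
  refine ⟨p, q, hck, ⟨?_, ?_, ?_, ?_, ?_⟩⟩
  · intro i hi
    have h1 := tw_mem (s := (Z.dim : ℤ) - i) h (x := fun t r => sh (w t) (2 * r) i) hσ
      (fun t r hr => by
        have h3 := (h.symm t r hr).1
        simp only [sh]
        split_ifs with h2
        · by_cases h4 : i - 2 * r ≤ 2 * (W t).dim
          · have h5 := (hs t).deg (i - 2 * r) h4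
            have e : ((W t).dim : ℤ) + ((Z.dim : ℤ) - i + (r : ℤ) - ((Z.dim - (W t).dim - r : ℕ) : ℤ)) =
                2 * ((W t).dim : ℤ) - (i - 2 * r : ℕ) := by
              rw [Nat.cast_sub h2, Nat.cast_sub (by omega), Nat.cast_sub (by omega)]
              push_cast; ring
            rw [e]
            exact h5
          · rw [(hs t).out _ (by omega)]
            exact Submodule.zero_mem _
        · exact Submodule.zero_mem _)
    have e : (Z.dim : ℤ) + ((Z.dim : ℤ) - i) = 2 * (Z.dim : ℤ) - i := by ring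
    rw [e] at h1
    exact h1
  · intro i hi
    refine tw_zero fun t r hr => ?_
    have := hsh t r hr i hi
    rw [sh, if_pos (by omega), (hs t).out _ (by omega)]
  · intro i hi
    simp only [p, q]
    rw [tw_comp h _ _ _ _ hid]
    refine tw_congr fun t r hr => ⟨?_, rfl⟩
    simp only [sh]
    split_ifs with h1
    · rw [(hs t).comp_pi_w (hπ t).comp_eq, if_pos rfl]
    · exact comp_zero C _
  · intro i hi
    simp only [p, q]
    rw [tw_comp h _ _ _ _ hσ]
    refine tw_congr fun t r hr => ⟨?_, rfl⟩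
    have h3 := (h.symm t r hr).1
    simp only [sh]
    by_cases h1 : 2 * r ≤ i
    · rw [if_pos h1]
      by_cases h4 : i - 2 * r ≤ 2 * (W t).dim
      · rw [if_pos (by omega), (hs t).comp_w_pi (hπ t).comp_eq, if_pos (by omega)]
      · rw [(hs t).out _ (by omega), zero_comp]
    · rw [if_neg h1, zero_comp]
  · intro i hi
    simp only [p, q]
    rw [tw_comp h _ _ _ _ hσ]
    refine tw_congr fun t r hr => ⟨?_, ?_⟩
    · have h3 := (h.symm t r hr).1
      simp only [sh]
      by_cases h1 : 2 * r ≤ i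
      · rw [if_pos h1, if_pos h1]
        by_cases h4 : i - 2 * r ≤ 2 * (W t).dim
        · rw [if_pos (by omega), (hs t).comp_w_w (hπ t).comp_eq, if_pos (by omega)]
        · rw [(hs t).out _ (by omega), zero_comp, (hπ t).out _ (by omega)]
      · rw [if_neg h1, zero_comp, if_neg h1]
    · have h3 := (h.symm t r hr).1
      show Z.dim - (W t).dim - (Z.dim - (W t).dim - r) = r
      omega

end weil

end Pool.Agent.U840.SY
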