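import Pool.Agent.U840.SY.BDefs
import Pool.Agent.U840.SY.Sum

/-!
# Symmetric Chow-Kunneth decompositions and Murre's conjecture (B)
-/

set_option autoImplicit false

open CategoryTheory AlgebraicGeometry

universe u v w

namespace Pool.Agent.U840.SY

open Pool.Agent.H914 Pool.Agent.H914.VarClass Pool.Agent.H914.VarClass.Obj Pool.Agent.W492.BB
  Pool.Agent.W550.Corr Pool.Agent.TH133 Pool.Agent.Y107 Pool.Agent.Q73.LS

set_option linter.unusedSectionVars false

variable {k : Type u} [Field k] {𝒱 : VarClass k}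

section weil

variable {C : TheoryData.{u, v, 0} 𝒱 ℚ} [hC : IsChowProj C] {K : Type w} [Field K]
  {H : WeilTheoryData.{u, v, w} C K} [hH : IsWeilProj H] {X Y Z : 𝒱.Obj}

include hC

/-- `π i` acts as zero on `CH^j(X)`, `j` an integer -/
def KillsAll (C : TheoryData.{u, v, 0} 𝒱 ℚ) {X : 𝒱.Obj} (π : ℕ → C.A (X.prod X)) (i : ℕ) (j : ℤ) :
    Prop :=
  ∀ x : C.A X, x ∈ C.gr X j → C.act (π i) x = 0

lemma killsAll_symm {π w : ℕ → C.A (X.prod X)} (hs : IsSymmetric C π w) {i : ℕ} {j : ℤ}
    (hi : i ≤ 2 * X.dim) (h : KillsAll C π (2 * X.dim - i) (j + X.dim - i)) : KillsAll C π i j := by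
  intro x hx
  rw [hs.act_eq hi, h _ (hs.act_mem hi hx)]
  exact C.act_map_zero _

lemma killsAll_top {π : ℕ → C.A (X.prod X)} {i : ℕ} {j : ℤ} (hj : (X.dim : ℤ) < j) :
    KillsAll C π i j := by
  intro x hx
  rw [hC.gr_top X j x hx hj]
  exact C.act_map_zero _

include hH

lemma b0In_iff {π : ℕ → C.A (X.prod X)} (hπ : IsCK H X π) (j : ℕ) :
    B0In C π j ↔ ∀ i : ℕ, 2 * j < i → KillsAll C π i j := by
  constructor
  · intro h i hi x hx
    have h1 : x ∈ ckFil C π j 0 := by rw [h]; exact hx
    rw [hπ.mem_ckFil] at h1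
    exact h1.2 i (by omega)
  · intro h
    ext x
    rw [hπ.mem_ckFil]
    exact ⟨fun h1 => h1.1, fun hx => ⟨hx, fun i hi => h i (by omega) x hx⟩⟩

lemma b1In_iff {π : ℕ → C.A (X.prod X)} (hπ : IsCK H X π) (j : ℕ) :
    B1In C π j ↔ ∀ i : ℕ, i < j → KillsAll C π i j := by
  have hact : ∀ (m i : ℕ) (y : C.A X), C.act (π i) (C.act (π m) y) =
      if m = i then C.act (π m) y else 0 := by
    intro m i y
    rw [← C.act_comp, hπ.comp_eq]
    split_ifs
    · rfl
    · exact C.act_zero y
  constructor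
  · intro h i hi x hx
    have h1 : C.act (π i) x ∈ ckFil C π j (j + 1) := by
      rw [hπ.mem_ckFil]
      refine ⟨act_mem0 C (hπ.deg i) hx, fun m hm => ?_⟩
      rw [hact, if_neg (by omega)]
    rw [h] at h1
    exact (Submodule.mem_bot _).1 h1
  · intro h
    rw [B1In, eq_bot_iff]
    intro x hx
    rw [hπ.mem_ckFil] at hx
    rw [Submodule.mem_bot]
    have h1 : x = ∑ i ∈ Finset.range (2 * X.dim + 1), C.act (π i) x := by
      rw [← act_sum, hπ.sum, act_dg]
    rw [h1]
    refine Finset.sum_eq_zero fun i hi => ?_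
    by_cases hij : i < j
    · exact h i hij x hx.1
    · exact hx.2 i (by omega)

lemma killsAll_low (hP : PicardFaithful H) {π : ℕ → C.A (X.prod X)} (hπ : IsCK H X π) {i : ℕ}
    {j : ℤ} (hj : j ≤ 1) (hij : 2 * j < i) : KillsAll C π i j := by
  intro x hx
  by_cases hn : j < 0
  · rw [C.gr_neg X _ hn, Submodule.mem_bot] at hx
    rw [hx]; exact C.act_map_zero _
  · obtain ⟨j', rfl⟩ := Int.eq_ofNat_of_zero_le (not_lt.1 hn)
    exact low_B0 hP hπ (by omega) (by omega) hx

/-- The second half of (B) holds for symmetric decompositions. -/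
theorem b1In_of_symmetric {π w : ℕ → C.A (X.prod X)} (hπ : IsCK H X π) (hs : IsSymmetric C π w)
    (j : ℕ) : B1In C π j := by
  rw [b1In_iff hπ]
  intro i hij
  by_cases hi : i ≤ 2 * X.dim
  swap
  · exact fun x hx => by rw [hπ.out i (by omega)]; exact C.act_zero x
  rcases Nat.lt_or_ge X.dim i with h1 | h1
  · exact killsAll_top (by omega)
  · exact killsAll_symm hs hi (killsAll_top (by omega))

/-- The first half of (B) for symmetric decompositions. -/
theorem b0In_of_symmetric (hP : PicardFaithful H) {π w : ℕ → C.A (X.prod X)} (hπ : IsCK H X π)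
    (hs : IsSymmetric C π w) (j : ℕ)
    (h : ∀ j' i : ℕ, 2 ≤ j' → j' ≤ j → j + j' < X.dim → 2 * j' < i → i ≤ X.dim →
      ∀ x : C.A X, C.Deg j' x → C.act (π i) x = 0) : B0In C π j := by
  rw [b0In_iff hπ]
  intro i hij
  by_cases hi : i ≤ 2 * X.dim
  swap
  · exact fun x hx => by rw [hπ.out i (by omega)]; exact C.act_zero x
  rcases Nat.lt_or_ge X.dim i with h1 | h1
  · refine killsAll_symm hs hi ?_
    by_cases hj : (j : ℤ) + X.dim - i ≤ 1
    · exact killsAll_low hP hπ hj (by omega)
    · intro y hy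
      obtain ⟨j', hj'⟩ := Int.eq_ofNat_of_zero_le (show (0 : ℤ) ≤ (j : ℤ) + X.dim - i by omega)
      rw [hj'] at hy
      exact h j' (2 * X.dim - i) (by omega) (by omega) (by omega) (by omega) (by omega) y hy
  · by_cases hj : j ≤ 1
    · exact killsAll_low hP hπ (by omega) (by omega)
    · intro x hx
      exact h j i (by omega) le_rfl (by omega) hij h1 x hx

theorem b0In_low (hP : PicardFaithful H) {π : ℕ → C.A (X.prod X)} (hπ : IsCK H X π)
    {j : ℕ} (hj : j ≤ 1) : B0In C π j := by
  rw [b0In_iff hπ]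
  intro i hij
  exact killsAll_low hP hπ (by omega) (by omega)

/-- Duality. -/
theorem b0In_dual (hP : PicardFaithful H) {π w : ℕ → C.A (X.prod X)} (hπ : IsCK H X π)
    (hs : IsSymmetric C π w) (m : ℕ) (h : ∀ j : ℕ, 2 ≤ j → j ≤ m → B0In C π j) (j : ℕ)
    (hj : X.dim ≤ j + m + 1) : B0In C π j := by
  refine b0In_of_symmetric hP hπ hs j fun j' i h2 _ h3 h4 _ x hx => ?_
  exact (b0In_iff hπ j').1 (h j' h2 (by omega)) i h4 x hx

/-- If the homologically trivial self-correspondences are nilpotent, then a projector of one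
decomposition acts as zero on `CH^j` if and only if the projectors of all decompositions do. -/
theorem killsAll_congr (hX : HomNilpotent H X) {π π' : ℕ → C.A (X.prod X)} (hπ : IsCK H X π)
    (hπ' : IsCK H X π') {i : ℕ} {j : ℤ} (h2 : KillsAll C π i j) : KillsAll C π' i j := by
  intro x hx
  set z : C.A (X.prod X) := π' i - C.comp (C.comp (π' i) (π i)) (π' i) with hz
  have hzdeg : z ∈ C.gr (X.prod X) X.dim :=
    Submodule.sub_mem _ (hπ'.deg i) (comp_mem0 C (comp_mem0 C (hπ'.deg i) (hπ.deg i)) (hπ'.deg i))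
  have hz0 : H.cl z = 0 := by
    apply eq_zero_of_act H
    have hlin : (H.actL (H.cl z) : H.A X →ₗ[K] H.A X) = 0 := by
      apply ext_gr H
      intro m a ha
      rw [LinearMap.zero_apply, TheoryData.actL_apply, hz, map_sub, H.act_sub, actH_comp, actH_comp,
        hπ'.actH_eq i m ha]
      split_ifs with hm
      · rw [hπ.actH_eq i m ha, if_pos hm, hπ'.actH_eq i m ha, if_pos hm, sub_self]
      · rw [H.act_map_zero, H.act_map_zero, sub_self]
    intro a
    exact LinearMap.congr_fun hlin a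
  obtain ⟨m, hm⟩ := hX z hzdeg hz0
  set y := C.act (π' i) x with hy
  have hydeg : y ∈ C.gr X j := act_mem0 C (hπ'.deg i) hx
  have hyy : C.act (π' i) y = y := by rw [hy, ← C.act_comp, hπ'.idem]
  have hzy : C.act z y = y := by
    rw [hz, C.act_sub, C.act_comp, C.act_comp, hyy, h2 y hydeg, C.act_map_zero, sub_zero]
  have hpow : ∀ m : ℕ, C.act (corPow C z m) y = y := by
    intro m
    induction m with
    | zero => exact act_dg C y
    | succ m ih =>
      change C.act (C.comp (corPow C z m) z) y = y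
      rw [C.act_comp, ih, hzy]
  rw [← hpow m, hm]
  exact C.act_zero y

theorem b0In_congr (hX : HomNilpotent H X) {π π' : ℕ → C.A (X.prod X)} (hπ : IsCK H X π)
    (hπ' : IsCK H X π') {j : ℕ} (h : B0In C π j) : B0In C π' j := by
  rw [b0In_iff hπ] at h
  rw [b0In_iff hπ']
  exact fun i hi => killsAll_congr hX hπ hπ' (h i hi)

theorem b1In_congr (hX : HomNilpotent H X) {π π' : ℕ → C.A (X.prod X)} (hπ : IsCK H X π)
    (hπ' : IsCK H X π') {j : ℕ} (h : B1In C π j) : B1In C π' j := by
  rw [b1In_iff hπ] at h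
  rw [b1In_iff hπ']
  exact fun i hi => killsAll_congr hX hπ hπ' (h i hi)

/-- All members of the generated class have symmetric decompositions. -/
theorem Generated.hasSymmetricCK {X : 𝒱.Obj} (h : Generated H X) : HasSymmetricCK H X := by
  induction h with
  | curve X hX => exact hasSymmetricCK_curve hX
  | lefschetz X L hL h => exact hasSymmetricCK_of_lefschetz hL h
  | section' X Y f r D c hr hO hD hc hf h => exact hasSymmetricCK_section hD hc hr hf hO h
  | prod X Y _ _ ihX ihY => exact ihX.prod ihY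
  | sum Z m W R a b h _ ih => exact hasSymmetricCK_sum h ih

end weil

end Pool.Agent.U840.SY
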