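import Pool.Agent.U840.SY.Defs

/-!
# The class generated by curves, motivic hard Lefschetz, sections, products and sums: definitions
-/

set_option autoImplicit false

open CategoryTheory AlgebraicGeometry

universe u v w

namespace Pool.Agent.U840.SY

open Pool.Agent.H914 Pool.Agent.H914.VarClass Pool.Agent.H914.VarClass.Obj Pool.Agent.W492.BB
  Pool.Agent.W550.Corr Pool.Agent.TH133 Pool.Agent.Y107 Pool.Agent.Q73.LS

variable {k : Type u} [Field k] {𝒱 : VarClass k}

/-- The smallest class of varieties which contains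

* all curves;
* all varieties with a Chow-Kunneth decomposition satisfying motivic hard Lefschetz for a
  correspondence `L` of degree one;
* all Lefschetz sections and covers `f : X → Y` of varieties `Y` with a Chow-Kunneth decomposition
  satisfying motivic hard Lefschetz for a divisor class `D` (`f^*` is onto in degrees below `dim X` and
  `f_* [X] = c D^r`, `r = dim Y - dim X`, `c ≠ 0`);

and is closed under products and under symmetric sums of twists (`IsTwistSum`: projective bundles over
members, blow-ups of members along members). -/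
inductive Generated {C : TheoryData.{u, v, 0} 𝒱 ℚ} {K : Type w} [Field K]
    (H : WeilTheoryData.{u, v, w} C K) : 𝒱.Obj → Prop
  | curve (X : 𝒱.Obj) : X.dim = 1 → Generated H X
  | lefschetz (X : 𝒱.Obj) (L : C.A (X.prod X)) : C.Deg ((X.dim : ℤ) + 1) L →
      (∃ π, IsCK H X π ∧ MotivicLefschetz C L π) → Generated H X
  | section' (X Y : 𝒱.Obj) (f : X ⟶ Y) (r : ℕ) (D : C.A Y) (c : ℚ) : Y.dim = X.dim + r →
      OntoBelow H f → C.Deg 1 D → c ≠ 0 → C.push f 1 = c • D ^ r →
      (∃ π, IsCK H Y π ∧ MotivicLefschetz C (C.mulCorr D) π) → Generated H X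
  | prod (X Y : 𝒱.Obj) : Generated H X → Generated H Y → Generated H (X.prod Y)
  | sum (Z : 𝒱.Obj) (m : ℕ) (W : Fin m → 𝒱.Obj) (R : Fin m → Finset ℕ)
      (a : ∀ t, ℕ → C.A (Z.prod (W t))) (b : ∀ t, ℕ → C.A ((W t).prod Z)) :
      IsTwistSum C Z W R a b → (∀ t, Generated H (W t)) → Generated H Z

/-- The first half of Murre's conjecture (B) in codimension `j` for the decomposition `π`:
`F^0 CH^j(X) = CH^j(X)`, that is, `π i` acts as zero on `CH^j(X)` for `i > 2 j`. -/
def B0In (C : TheoryData.{u, v, 0} 𝒱 ℚ) {X : 𝒱.Obj} (π : ℕ → C.A (X.prod X)) (j : ℕ) : Prop :=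
  ckFil C π j 0 = C.gr X j

/-- The second half of Murre's conjecture (B) in codimension `j` for the decomposition `π`:
`F^(j + 1) CH^j(X) = 0`, that is, `π i` acts as zero on `CH^j(X)` for `i < j`. -/
def B1In (C : TheoryData.{u, v, 0} 𝒱 ℚ) {X : 𝒱.Obj} (π : ℕ → C.A (X.prod X)) (j : ℕ) : Prop :=
  ckFil C π j (j + 1) = ⊥

end Pool.Agent.U840.SY
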