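import Pool.Agent.U840.SY.Core

/-!
# Varieties with symmetric Chow-Kunneth decompositions
-/

set_option autoImplicit false

open CategoryTheory AlgebraicGeometry

universe u v w

namespace Pool.Agent.U840.SY

open Pool.Agent.H914 Pool.Agent.H914.VarClass Pool.Agent.H914.VarClass.Obj Pool.Agent.W492.BB
  Pool.Agent.W550.Corr Pool.Agent.TH133 Pool.Agent.Y107 Pool.Agent.Q73.LS

set_option linter.unusedSectionVars false

variable {k : Type u} [Field k] {𝒱 : VarClass k}

section chow

variable {C : TheoryData.{u, v, 0} 𝒱 ℚ} [hC : IsChowProj C] {X Y Z : 𝒱.Obj}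

include hC

lemma corPow_mem' {L : C.A (X.prod X)} (hL : C.Deg ((X.dim : ℤ) + 1) L) (m : ℕ) :
    corPow C L m ∈ C.gr (X.prod X) ((X.dim : ℤ) + m) := corPow_mem hL m

/-- Motivic hard Lefschetz implies symmetry. -/
theorem symmetric_of_lefschetz {L : C.A (X.prod X)} (hL : C.Deg ((X.dim : ℤ) + 1) L)
    {π : ℕ → C.A (X.prod X)} (hdeg : ∀ i, C.Deg X.dim (π i))
    (hidem : ∀ i, C.comp (π i) (π i) = π i) (hM : MotivicLefschetz C L π) :
    ∃ w, IsSymmetric C π w := by
  classical
  set n := X.dim with hn
  have hiso : ∀ i : ℕ, ∃ g : C.A (X.prod X), i ≤ n → C.Deg i g ∧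
      C.comp (C.comp (π i) (corPow C L (n - i))) g = π i ∧
      C.comp (C.comp (π (2 * n - i)) g) (corPow C L (n - i)) = π (2 * n - i) := by
    intro i
    by_cases hi : i ≤ n
    · obtain ⟨g, hg⟩ := hM.iso i hi
      exact ⟨g, fun _ => hg⟩
    · exact ⟨0, fun h => absurd h hi⟩
  choose g hg using hiso
  have hhom : ∀ i ≤ n, C.comp (π i) (corPow C L (n - i)) =
      C.comp (corPow C L (n - i)) (π (2 * n - i)) := by
    intro i hi
    rw [homog_pow hM.homogeneous]
    congr 2
    omega
  have hdeg' : ∀ j, π j ∈ C.gr (X.prod X) ((X.dim : ℤ) + 0) := fun j => by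
    rw [add_zero]; exact hdeg j
  let w : ℕ → C.A (X.prod X) := fun i =>
    if i ≤ n then C.comp (π i) (corPow C L (n - i))
    else if i ≤ 2 * n then C.comp (C.comp (π i) (g (2 * n - i))) (π (2 * n - i)) else 0
  have wlow : ∀ i, i ≤ n → w i = C.comp (π i) (corPow C L (n - i)) := fun i hi => if_pos hi
  have whigh : ∀ i, n < i → i ≤ 2 * n →
      w i = C.comp (C.comp (π i) (g (2 * n - i))) (π (2 * n - i)) := by
    intro i h1 h2
    simp only [w]
    rw [if_neg (by omega), if_pos h2]
  have wn : w n = π n := by
    rw [wlow n le_rfl, Nat.sub_self]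
    exact comp_dg C _
  refine ⟨w, ⟨?_, ?_, ?_, ?_, ?_⟩⟩
  · intro i hi
    rcases Nat.lt_or_ge n i with h | h
    · rw [whigh i h hi]
      have h1 : g (2 * n - i) ∈ C.gr (X.prod X) ((X.dim : ℤ) + ((n : ℤ) - i)) := by
        have e : (X.dim : ℤ) + ((n : ℤ) - i) = ((2 * n - i : ℕ) : ℤ) := by
          rw [← hn]; omega
        rw [e]
        exact (hg (2 * n - i) (by omega)).1
      have h2 := comp_mem C (comp_mem C (hdeg' i) h1) (hdeg' (2 * n - i))
      have e : (X.dim : ℤ) + (0 + ((n : ℤ) - i) + 0) = 2 * (X.dim : ℤ) - i := by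
        rw [← hn]; ring
      rw [e] at h2
      exact h2
    · rw [wlow i h]
      have h2 := comp_mem C (hdeg' i) (corPow_mem' hL (n - i))
      have e : (X.dim : ℤ) + (0 + ((n - i : ℕ) : ℤ)) = 2 * (X.dim : ℤ) - i := by
        rw [Nat.cast_sub h, ← hn]; ring
      rw [e] at h2
      exact h2
  · intro i hi
    simp only [w]
    rw [if_neg (by omega), if_neg (by omega)]
  · intro i hi
    rcases Nat.lt_or_ge n i with h | h
    · rw [whigh i h hi, ← comp_assoc C, ← comp_assoc C, hidem]
    · rw [wlow i h, ← comp_assoc C, hidem]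
  · intro i hi
    rcases Nat.lt_or_ge n i with h | h
    · rw [whigh i h hi, comp_assoc C _ (π (2 * n - i)), hidem]
    · rw [wlow i h, hhom i h, comp_assoc C, hidem]
  · intro i hi
    rcases Nat.lt_or_ge n i with h | h
    · rw [whigh i h hi, wlow (2 * n - i) (by omega)]
      have hi' : 2 * n - i ≤ n := by omega
      have h1 : C.comp (C.comp (C.comp (π i) (g (2 * n - i))) (π (2 * n - i)))
          (C.comp (π (2 * n - i)) (corPow C L (n - (2 * n - i)))) =
          C.comp (C.comp (π i) (g (2 * n - i)))
            (C.comp (C.comp (π (2 * n - i)) (π (2 * n - i))) (corPow C L (n - (2 * n - i)))) := by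
        simp only [comp_assoc C]
      rw [h1, hidem, hhom _ hi', ← comp_assoc C]
      have h2 := (hg (2 * n - i) hi').2.2
      have e : 2 * n - (2 * n - i) = i := by omega
      rw [e] at h2 ⊢
      rw [h2, hidem]
    · rcases Nat.eq_or_lt_of_le h with h' | h'
      · have e : 2 * n - i = i := by omega
        rw [e, h', wn, hidem]
      · rw [wlow i h, whigh (2 * n - i) (by omega) (by omega)]
        have e : 2 * n - (2 * n - i) = i := by omega
        rw [e]
        have h1 : C.comp (C.comp (π i) (corPow C L (n - i)))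
            (C.comp (C.comp (π (2 * n - i)) (g i)) (π i)) =
            C.comp (C.comp (C.comp (C.comp (π i) (corPow C L (n - i))) (π (2 * n - i))) (g i)) (π i) := by
          simp only [comp_assoc C]
        rw [h1, hhom i h, comp_assoc C _ (π (2 * n - i)) (π (2 * n - i)), hidem, ← hhom i h,
          (hg i h).2.1, hidem]

/-! ### Products -/

lemma IsSymmetric.comp_pi_w {π w : ℕ → C.A (X.prod X)} (hs : IsSymmetric C π w)
    (horth : ∀ i j, C.comp (π i) (π j) = if i = j then π i else 0) (i j : ℕ) :
    C.comp (π i) (w j) = if i = j then w j else 0 := by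
  by_cases hj : j ≤ 2 * X.dim
  · rw [← hs.left j hj, ← comp_assoc C, horth]
    split_ifs with h
    · rw [h]
    · exact zero_comp C _
  · rw [hs.out j (by omega), comp_zero]
    simp

lemma IsSymmetric.comp_w_pi {π w : ℕ → C.A (X.prod X)} (hs : IsSymmetric C π w)
    (horth : ∀ i j, C.comp (π i) (π j) = if i = j then π i else 0) (i j : ℕ) :
    C.comp (w i) (π j) = if i + j = 2 * X.dim then w i else 0 := by
  by_cases hi : i ≤ 2 * X.dim
  · rw [← hs.right i hi, comp_assoc C, horth]
    by_cases h : i + j = 2 * X.dim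
    · rw [if_pos h, if_pos (by omega)]
    · rw [if_neg h, if_neg (by omega), comp_zero]
  · rw [hs.out i (by omega), zero_comp]
    simp

lemma IsSymmetric.comp_w_w {π w : ℕ → C.A (X.prod X)} (hs : IsSymmetric C π w)
    (horth : ∀ i j, C.comp (π i) (π j) = if i = j then π i else 0) (i j : ℕ) :
    C.comp (w i) (w j) = if i + j = 2 * X.dim then π i else 0 := by
  by_cases hi : i ≤ 2 * X.dim
  · by_cases h : i + j = 2 * X.dim
    · rw [if_pos h]
      have e : j = 2 * X.dim - i := by omega
      rw [e]
      exact hs.inv i hi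
    · rw [if_neg h, ← hs.right i hi, comp_assoc C, hs.comp_pi_w horth, if_neg (by omega), comp_zero]
  · rw [hs.out i (by omega), zero_comp, if_neg (by omega)]

/-- The product of symmetric decompositions. -/
theorem IsSymmetric.prod {π w : ℕ → C.A (X.prod X)} {ρ t : ℕ → C.A (Z.prod Z)}
    (hs : IsSymmetric C π w) (ht : IsSymmetric C ρ t)
    (horth : ∀ i j, C.comp (π i) (π j) = if i = j then π i else 0)
    (horth' : ∀ i j, C.comp (ρ i) (ρ j) = if i = j then ρ i else 0)
    (hout : ∀ i, 2 * X.dim < i → π i = 0) (hout' : ∀ i, 2 * Z.dim < i → ρ i = 0) :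
    IsSymmetric C (prodCK C π ρ) (prodCK C w t) := by
  have hd : (X.prod Z).dim = X.dim + Z.dim := dim_prod X Z
  refine ⟨?_, ?_, ?_, ?_, ?_⟩
  · intro q hq
    unfold prodCK
    apply Submodule.sum_mem
    intro i hi
    rw [Finset.mem_range] at hi
    by_cases h1 : i ≤ 2 * X.dim
    · by_cases h2 : q - i ≤ 2 * Z.dim
      · have h3 := tens_mem C (hs.deg i h1) (ht.deg (q - i) h2)
        have e : (2 * (X.dim : ℤ) - i) + (2 * (Z.dim : ℤ) - (q - i : ℕ)) =
            2 * ((X.prod Z).dim : ℤ) - q := by
          rw [hd, Nat.cast_sub (by omega)]; push_cast; ring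
        rw [e] at h3
        exact h3
      · rw [ht.out _ (by omega), tens_zero_right]
        exact Submodule.zero_mem _
    · rw [hs.out _ (by omega), tens_zero_left]
      exact Submodule.zero_mem _
  · intro q hq
    unfold prodCK
    apply Finset.sum_eq_zero
    intro i hi
    rw [Finset.mem_range] at hi
    by_cases h1 : 2 * X.dim < i
    · rw [hs.out _ h1, tens_zero_left]
    · rw [ht.out _ (by omega), tens_zero_right]
  · intro q hq
    unfold prodCK
    rw [comp_sum]
    simp_rw [sum_comp, tens_comp']
    apply Finset.sum_congr rfl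
    intro p hp
    rw [Finset.mem_range] at hp
    rw [Finset.sum_eq_single p]
    · rw [hs.comp_pi_w horth, ht.comp_pi_w horth', if_pos rfl, if_pos rfl]
    · intro i hi hip
      rw [hs.comp_pi_w horth, if_neg hip, tens_zero_left]
    · intro h1
      exact absurd (Finset.mem_range.2 hp) h1
  · intro q hq
    unfold prodCK
    rw [sum_comp]
    simp_rw [comp_sum, tens_comp']
    apply Finset.sum_congr rfl
    intro i hi
    rw [Finset.mem_range] at hi
    rw [hd]
    by_cases h1 : i ≤ 2 * X.dim
    · by_cases h2 : q - i ≤ 2 * Z.dim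
      · rw [Finset.sum_eq_single (2 * X.dim - i)]
        · rw [hs.comp_w_pi horth, ht.comp_w_pi horth', if_pos (by omega), if_pos (by omega)]
        · intro j hj hji
          rw [hs.comp_w_pi horth, if_neg (by omega), tens_zero_left]
        · intro h3
          exfalso
          apply h3
          rw [Finset.mem_range]
          omega
      · rw [ht.out _ (by omega), tens_zero_right]
        apply Finset.sum_eq_zero
        intro j _
        rw [zero_comp, tens_zero_right]
    · rw [hs.out _ (by omega), tens_zero_left]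
      apply Finset.sum_eq_zero
      intro j _
      rw [zero_comp, tens_zero_left]
  · intro q hq
    unfold prodCK
    rw [sum_comp]
    simp_rw [comp_sum, tens_comp']
    apply Finset.sum_congr rfl
    intro i hi
    rw [Finset.mem_range] at hi
    rw [hd]
    by_cases h1 : i ≤ 2 * X.dim
    · by_cases h2 : q - i ≤ 2 * Z.dim
      · rw [Finset.sum_eq_single (2 * X.dim - i)]
        · rw [hs.comp_w_w horth, ht.comp_w_w horth', if_pos (by omega), if_pos (by omega)]
        · intro j hj hji
          rw [hs.comp_w_w horth, if_neg (by omega), tens_zero_left]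
        · intro h3
          exfalso
          apply h3
          rw [Finset.mem_range]
          omega
      · rw [hout' _ (by omega), tens_zero_right]
        apply Finset.sum_eq_zero
        intro j _
        rw [ht.out _ (by omega : 2 * Z.dim < q - i), zero_comp, tens_zero_right]
    · rw [hout _ (by omega), tens_zero_left]
      apply Finset.sum_eq_zero
      intro j _
      rw [hs.out _ (by omega : 2 * X.dim < i), zero_comp, tens_zero_left]

end chow

end Pool.Agent.U840.SY
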