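import Pool.Agent.Q73.LS.Defs

/-!
# Symmetric Chow-Kunneth decompositions: definitions
-/

set_option autoImplicit false

open CategoryTheory AlgebraicGeometry

universe u v w

namespace Pool.Agent.U840.SY

open Pool.Agent.H914 Pool.Agent.H914.VarClass Pool.Agent.H914.VarClass.Obj Pool.Agent.W492.BB
  Pool.Agent.W550.Corr Pool.Agent.TH133 Pool.Agent.Y107 Pool.Agent.Q73.LS

variable {k : Type u} [Field k] {𝒱 : VarClass k}

/-- The decomposition `π` of `X`, `n = dim X`, is symmetric by `w`: for all `i ≤ 2 n` the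
correspondence `w i ∈ CH^(2 n - i)(X × X)` is an isomorphism of Chow motives
`h^i(X) → h^(2 n - i)(X)(n - i)` with inverse `w (2 n - i)`. -/
structure IsSymmetric (C : TheoryData.{u, v, 0} 𝒱 ℚ) {X : 𝒱.Obj} (π w : ℕ → C.A (X.prod X)) :
    Prop where
  deg : ∀ i ≤ 2 * X.dim, C.Deg (2 * (X.dim : ℤ) - i) (w i)
  out : ∀ i, 2 * X.dim < i → w i = 0
  left : ∀ i ≤ 2 * X.dim, C.comp (π i) (w i) = w i
  right : ∀ i ≤ 2 * X.dim, C.comp (w i) (π (2 * X.dim - i)) = w i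
  inv : ∀ i ≤ 2 * X.dim, C.comp (w i) (w (2 * X.dim - i)) = π i

/-- `X` has a Chow-Kunneth decomposition `h(X) = ⊕ h^i(X)` with isomorphisms of Chow motives
`h^i(X) ≃ h^(2 n - i)(X)(n - i)`, `n = dim X`, for all `i`. -/
def HasSymmetricCK {C : TheoryData.{u, v, 0} 𝒱 ℚ} {K : Type w} [Field K]
    (H : WeilTheoryData.{u, v, w} C K) (X : 𝒱.Obj) : Prop :=
  ∃ π w : ℕ → C.A (X.prod X), IsCK H X π ∧ IsSymmetric C π w

/-- Murre's conjecture (D) in codimension `j` for the Chow-Kunneth decomposition `π` of `X`: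
`F^1 CH^j(X)` is the group of homologically trivial cycles. -/
def SatisfiesDIn {C : TheoryData.{u, v, 0} 𝒱 ℚ} {K : Type w} [Field K]
    (H : WeilTheoryData.{u, v, w} C K) {X : 𝒱.Obj} (π : ℕ → C.A (X.prod X)) (j : ℕ) : Prop :=
  ∀ x : C.A X, x ∈ ckFil C π j 1 ↔ C.Deg j x ∧ H.cl x = 0

/-- The homologically trivial self-correspondences of degree zero of `X` are nilpotent. -/
def HomNilpotent {C : TheoryData.{u, v, 0} 𝒱 ℚ} {K : Type w} [Field K]
    (H : WeilTheoryData.{u, v, w} C K) (X : 𝒱.Obj) : Prop :=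
  ∀ z : C.A (X.prod X), C.Deg X.dim z → H.cl z = 0 → ∃ m : ℕ, corPow C z m = 0

/-- `h(Z)` is the direct sum of the motives `h(W t)(-r)`, for `t` in a finite set and `r` in a finite
set `R t` which is symmetric under `r ↦ dim Z - dim (W t) - r`: there are projections
`a t r : h(Z) → h(W t)(-r)` and inclusions `b t r : h(W t)(-r) → h(Z)`. For the blow-up `Z` of `X` in
`W ⊂ X` of codimension `c` the summands are `h(X)` and `h(W)(-r)` for `0 < r < c`, and for a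
projective bundle of rank `e` over `X` they are `h(X)(-r)` for `0 ≤ r ≤ e` (Manin). -/
structure IsTwistSum (C : TheoryData.{u, v, 0} 𝒱 ℚ) (Z : 𝒱.Obj) {T : Type} [Fintype T] (W : T → 𝒱.Obj)
    (R : T → Finset ℕ) (a : ∀ t, ℕ → C.A (Z.prod (W t))) (b : ∀ t, ℕ → C.A ((W t).prod Z)) :
    Prop where
  symm : ∀ t, ∀ r ∈ R t, (W t).dim + r ≤ Z.dim ∧ Z.dim - (W t).dim - r ∈ R t
  deg_a : ∀ t, ∀ r ∈ R t, C.Deg ((Z.dim : ℤ) - r) (a t r)
  deg_b : ∀ t, ∀ r ∈ R t, C.Deg (((W t).dim : ℤ) + r) (b t r)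
  same : ∀ t, ∀ r ∈ R t, C.comp (b t r) (a t r) = dg C (W t)
  orth : ∀ t t', ∀ r ∈ R t, ∀ r' ∈ R t', (t = t' → r ≠ r') → C.comp (b t r) (a t' r') = 0
  sum : ∑ t, ∑ r ∈ R t, C.comp (a t r) (b t r) = dg C Z

end Pool.Agent.U840.SY
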