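import Pool.Agent.Q73.LS.Murre
import Pool.Agent.U840.SY.Defs

/-!
# Symmetric Chow-Kunneth decompositions and Murre's conjecture (D)
-/

set_option autoImplicit false

open CategoryTheory AlgebraicGeometry

universe u v w

namespace Pool.Agent.U840.SY

open Pool.Agent.H914 Pool.Agent.H914.VarClass Pool.Agent.H914.VarClass.Obj Pool.Agent.W492.BB
  Pool.Agent.W550.Corr Pool.Agent.TH133 Pool.Agent.Y107 Pool.Agent.Q73.LS

set_option linter.unusedSectionVars false

variable {k : Type u} [Field k] {𝒱 : VarClass k}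

section chow

variable {C : TheoryData.{u, v, 0} 𝒱 ℚ} [hC : IsChowProj C] {X Y Z : 𝒱.Obj}

include hC

lemma IsSymmetric.act_eq {π w : ℕ → C.A (X.prod X)} (hs : IsSymmetric C π w) {i : ℕ}
    (hi : i ≤ 2 * X.dim) (x : C.A X) :
    C.act (π i) x = C.act (w (2 * X.dim - i)) (C.act (π (2 * X.dim - i)) (C.act (w i) x)) := by
  have h1 : C.comp (π (2 * X.dim - i)) (w (2 * X.dim - i)) = w (2 * X.dim - i) :=
    hs.left _ (by omega)
  rw [← C.act_comp, h1, ← C.act_comp, hs.inv i hi]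

lemma IsSymmetric.act_mem {π w : ℕ → C.A (X.prod X)} (hs : IsSymmetric C π w) {i : ℕ}
    (hi : i ≤ 2 * X.dim) {j : ℤ} {x : C.A X} (hx : x ∈ C.gr X j) :
    C.act (w i) x ∈ C.gr X (j + X.dim - i) := by
  have h0 : w i ∈ C.gr (X.prod X) ((X.dim : ℤ) + ((X.dim : ℤ) - i)) := by
    have e : (X.dim : ℤ) + ((X.dim : ℤ) - i) = 2 * (X.dim : ℤ) - i := by ring
    rw [e]; exact hs.deg i hi
  have h1 := act_mem' C h0 hx
  have e : j + ((X.dim : ℤ) - i) = j + X.dim - i := by ring
  rwa [e] at h1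

end chow

section weil

variable {C : TheoryData.{u, v, 0} 𝒱 ℚ} [hC : IsChowProj C] {K : Type w} [Field K]
  {H : WeilTheoryData.{u, v, w} C K} [hH : IsWeilProj H] {X Y Z : 𝒱.Obj}

include hC hH

lemma cl_act_eq_zero {Γ : C.A (X.prod Y)} {x : C.A X} (h : H.cl x = 0) : H.cl (C.act Γ x) = 0 := by
  rw [cl_act H, h]
  exact H.act_map_zero _

/-- (D) in codimension `j` in terms of the projectors -/
lemma satisfiesDIn_iff {π : ℕ → C.A (X.prod X)} (hπ : IsCK H X π) (j : ℕ) :
    SatisfiesDIn H π j ↔ ∀ i : ℕ, 2 * j ≤ i → ∀ x : C.A X, C.Deg j x → H.cl x = 0 →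
      C.act (π i) x = 0 := by
  constructor
  · intro h i hi x hx h0
    have h1 := ((h x).2 ⟨hx, h0⟩)
    rw [hπ.mem_ckFil] at h1
    exact h1.2 i (by omega)
  · intro h x
    rw [hπ.mem_ckFil]
    constructor
    · rintro ⟨hx, hx'⟩
      refine ⟨hx, ?_⟩
      have h1 : C.act (π (2 * j)) x = 0 := hx' (2 * j) (by omega)
      have h2 := congrArg H.cl h1
      rw [cl_act H, map_zero] at h2
      rw [← h2]
      exact (hπ.act_self (2 * j) _ (by
        have := H.cl_mem hx
        have e : ((2 * j : ℕ) : ℤ) = 2 * (j : ℤ) := by push_cast; ring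
        rw [TheoryData.Deg, e]; exact this)).symm
    · rintro ⟨hx, h0⟩
      exact ⟨hx, fun i hi => h i (by omega) x hx h0⟩

lemma satisfiesD_iff {π : ℕ → C.A (X.prod X)} :
    SatisfiesD H π ↔ ∀ j, SatisfiesDIn H π j := Iff.rfl

/-- the projector `π i` kills the homologically trivial cycles of codimension `j` (an integer) -/
def Kills' (H : WeilTheoryData.{u, v, w} C K) (π : ℕ → C.A (X.prod X)) (i : ℕ) (j : ℤ) : Prop :=
  ∀ x : C.A X, x ∈ C.gr X j → H.cl x = 0 → C.act (π i) x = 0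

lemma kills'_low (hP : PicardFaithful H) {π : ℕ → C.A (X.prod X)} (hπ : IsCK H X π) {i : ℕ} {j : ℤ}
    (hj : j ≤ 1) (hij : 2 * j ≤ i) : Kills' H π i j := by
  intro x hx h0
  by_cases hn : j < 0
  · rw [C.gr_neg X _ hn, Submodule.mem_bot] at hx
    rw [hx]; exact C.act_map_zero _
  · obtain ⟨j', rfl⟩ := Int.eq_ofNat_of_zero_le (not_lt.1 hn)
    exact low_D hP hπ (by omega) (by omega) hx h0

lemma kills'_symm {π w : ℕ → C.A (X.prod X)} (hs : IsSymmetric C π w) {i : ℕ} {j : ℤ}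
    (hi : i ≤ 2 * X.dim) (h : Kills' H π (2 * X.dim - i) (j + X.dim - i)) : Kills' H π i j := by
  intro x hx h0
  rw [hs.act_eq hi, h _ (hs.act_mem hi hx) (cl_act_eq_zero h0)]
  exact C.act_map_zero _

/-- (D) in codimension `j` for symmetric decompositions: reduction to the codimensions `j' ≤ j`,
`j' ≤ n - j` and the projectors `π i`, `2 j' ≤ i ≤ n`. -/
theorem dIn_of_symmetric (hP : PicardFaithful H) {π w : ℕ → C.A (X.prod X)} (hπ : IsCK H X π)
    (hs : IsSymmetric C π w) (j : ℕ)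
    (h : ∀ j' i : ℕ, 2 ≤ j' → j' ≤ j → j + j' ≤ X.dim → 2 * j' ≤ i → i ≤ X.dim →
      ∀ x : C.A X, C.Deg j' x → H.cl x = 0 → C.act (π i) x = 0) : SatisfiesDIn H π j := by
  rw [satisfiesDIn_iff hπ]
  intro i hij x hx h0
  by_cases hi : i ≤ 2 * X.dim
  swap
  · rw [hπ.out i (by omega)]; exact C.act_zero x
  rcases Nat.lt_or_ge X.dim i with h1 | h1
  · refine kills'_symm hs hi ?_ x hx h0
    by_cases hj : (j : ℤ) + X.dim - i ≤ 1
    · exact kills'_low hP hπ hj (by omega)
    · intro y hy hy0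
      obtain ⟨j', hj'⟩ := Int.eq_ofNat_of_zero_le (show (0 : ℤ) ≤ (j : ℤ) + X.dim - i by omega)
      rw [hj'] at hy
      exact h j' (2 * X.dim - i) (by omega) (by omega) (by omega) (by omega) (by omega) y hy hy0
  · by_cases hj : j ≤ 1
    · exact low_D hP hπ hj hij hx h0
    · exact h j i (by omega) le_rfl (by omega) hij h1 x hx h0

/-- If (D) holds in the codimensions at most `m ≥ 1`, it holds in the dimensions at most `m`. -/
theorem dIn_dual (hP : PicardFaithful H) {π w : ℕ → C.A (X.prod X)} (hπ : IsCK H X π)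
    (hs : IsSymmetric C π w) (m : ℕ) (h : ∀ j : ℕ, 2 ≤ j → j ≤ m → SatisfiesDIn H π j) (j : ℕ)
    (hj : X.dim ≤ j + m) : SatisfiesDIn H π j := by
  refine dIn_of_symmetric hP hπ hs j fun j' i h2 _ h3 h4 _ x hx h0 => ?_
  exact (satisfiesDIn_iff hπ j').1 (h j' h2 (by omega)) i h4 x hx h0

theorem dIn_low (hP : PicardFaithful H) {π : ℕ → C.A (X.prod X)} (hπ : IsCK H X π)
    {j : ℕ} (hj : j ≤ 1) : SatisfiesDIn H π j := by
  rw [satisfiesDIn_iff hπ]
  intro i hij x hx h0
  exact low_D hP hπ hj hij hx h0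

/-- (D) is independent of the decomposition if the homologically trivial self-correspondences are
nilpotent. -/
theorem dIn_congr (hX : HomNilpotent H X) {π π' : ℕ → C.A (X.prod X)} (hπ : IsCK H X π)
    (hπ' : IsCK H X π') (j : ℕ) (h : SatisfiesDIn H π j) : SatisfiesDIn H π' j := by
  rw [satisfiesDIn_iff hπ] at h
  rw [satisfiesDIn_iff hπ']
  intro i hij x hx h0
  have h2 : ∀ y : C.A X, C.Deg j y → H.cl y = 0 → C.act (π i) y = 0 := fun y hy hy0 => h i hij y hy hy0
  -- `z = π' i - π' i ∘ π i ∘ π' i`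
  set z : C.A (X.prod X) := π' i - C.comp (C.comp (π' i) (π i)) (π' i) with hz
  have hzdeg : z ∈ C.gr (X.prod X) X.dim :=
    Submodule.sub_mem _ (hπ'.deg i) (comp_mem0 C (comp_mem0 C (hπ'.deg i) (hπ.deg i)) (hπ'.deg i))
  have hz0 : H.cl z = 0 := by
    apply eq_zero_of_act H
    have hlin : (H.actL (H.cl z) : H.A X →ₗ[K] H.A X) = 0 := by
      apply ext_gr H
      intro m a ha
      rw [LinearMap.zero_apply, TheoryData.actL_apply, hz, map_sub, H.act_sub, actH_comp, actH_comp,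
        hπ'.actH_eq i m ha]
      split_ifs with hm
      · rw [hπ.actH_eq i m ha, if_pos hm, hπ'.actH_eq i m ha, if_pos hm, sub_self]
      · rw [H.act_map_zero, H.act_map_zero, sub_self]
    intro a
    exact LinearMap.congr_fun hlin a
  obtain ⟨m, hm⟩ := hX z hzdeg hz0
  set y := C.act (π' i) x with hy
  have hydeg : y ∈ C.gr X j := act_mem0 C (hπ'.deg i) hx
  have hycl : H.cl y = 0 := cl_act_eq_zero h0
  have hyy : C.act (π' i) y = y := by rw [hy, ← C.act_comp, hπ'.idem]
  have hzy : C.act z y = y := by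
    rw [hz, C.act_sub, C.act_comp, C.act_comp, hyy, h2 y hydeg hycl, C.act_map_zero, sub_zero]
  have hpow : ∀ m : ℕ, C.act (corPow C z m) y = y := by
    intro m
    induction m with
    | zero => exact act_dg C y
    | succ m ih =>
      change C.act (C.comp (corPow C z m) z) y = y
      rw [C.act_comp, ih, hzy]
  rw [← hpow m, hm]
  exact C.act_zero y

end weil

end Pool.Agent.U840.SY
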