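import Pool.Agent.U840.SY.Class

/-!
# Lefschetz sections and covers have symmetric Chow-Kunneth decompositions
-/

set_option autoImplicit false

open CategoryTheory AlgebraicGeometry

universe u v w

namespace Pool.Agent.U840.SY

open Pool.Agent.H914 Pool.Agent.H914.VarClass Pool.Agent.H914.VarClass.Obj Pool.Agent.W492.BB
  Pool.Agent.W550.Corr Pool.Agent.TH133 Pool.Agent.Y107 Pool.Agent.Q73.LS

set_option linter.unusedSectionVars false

variable {k : Type u} [Field k] {𝒱 : VarClass k}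

section chow

variable {C : TheoryData.{u, v, 0} 𝒱 ℚ} [hC : IsChowProj C] {X Y Z : 𝒱.Obj}

include hC

lemma sand_mem' (f : X ⟶ Y) {r : ℕ} (hr : Y.dim = X.dim + r) {s : ℤ} {ν : C.A (Y.prod Y)}
    (hν : ν ∈ C.gr (Y.prod Y) ((Y.dim : ℤ) + s)) : sand f ν ∈ C.gr (X.prod X) (X.dim + (s + r)) := by
  have h1 : C.graph f ∈ C.gr (X.prod Y) ((X.dim : ℤ) + r) := by
    have h := graph_mem' (C := C) f
    have e : (Y.dim : ℤ) = X.dim + r := by rw [hr]; push_cast; ring
    rwa [e] at h
  have h2 : C.cograph f ∈ C.gr (Y.prod X) ((Y.dim : ℤ) + 0) := by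
    rw [add_zero]; exact cograph_mem f
  have h3 := comp_mem C (comp_mem C h1 hν) h2
  have e : (X.dim : ℤ) + ((r : ℤ) + s + 0) = X.dim + (s + r) := by ring
  rw [e] at h3
  exact h3

/-- The decomposition of a Lefschetz section or cover is symmetric. -/
theorem symmetric_pr {f : X ⟶ Y} {r : ℕ} {π ν : ℕ → C.A (Y.prod Y)} {D : C.A Y} (hD : C.Deg 1 D)
    {c : ℚ} (hc : c ≠ 0) (hr : Y.dim = X.dim + r) (hf : C.push f 1 = c • D ^ r)
    (hM : MotivicLefschetz C (C.mulCorr D) π) (hidem : ∀ i, C.comp (π i) (π i) = π i)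
    (horth : ∀ i j, i ≠ j → C.comp (π i) (π j) = 0)
    (hdeg : ∀ i, C.Deg Y.dim (π i)) (h : PartInv C f r π ν)
    (hL : ∀ i, C.comp (π i) (pp C f) = C.comp (pp C f) (π (i + 2 * r))) :
    ∃ w, IsSymmetric C (pr f ν) w := by
  classical
  have hmem : C.mulCorr D ∈ C.gr (Y.prod Y) ((Y.dim : ℤ) + 1) := by
    have h := C.push_mem (Obj.lift (𝟙 Y) (𝟙 Y)) hD
    have e1 : (1 : ℤ) + 1 * (((Y.prod Y).dim : ℤ) - (Y.dim : ℤ)) = Y.dim + 1 := by
      rw [dim_prod]; push_cast; ring
    rwa [e1] at h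
  set n := X.dim with hn
  set N := Y.dim with hN
  set P : ℕ → C.A (Y.prod Y) := corPow C (C.mulCorr D) with hP
  have hiso : ∀ i : ℕ, ∃ g : C.A (Y.prod Y), i ≤ N → C.Deg i g ∧
      C.comp (C.comp (π i) (P (N - i))) g = π i ∧
      C.comp (C.comp (π (2 * N - i)) g) (P (N - i)) = π (2 * N - i) := by
    intro i
    by_cases hi : i ≤ N
    · obtain ⟨g, hg⟩ := hM.iso i hi
      exact ⟨g, fun _ => hg⟩
    · exact ⟨0, fun h => absurd h hi⟩
  choose g hg using hiso
  have hhom : ∀ i j, C.comp (π i) (P j) = C.comp (P j) (π (i + 2 * j)) :=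
    fun i j => homog_pow hM.homogeneous i j
  have hdeg' : ∀ j, π j ∈ C.gr (Y.prod Y) ((N : ℤ) + 0) := fun j => by
    rw [add_zero]; exact hdeg j
  -- the two kinds of correspondences on `Y`
  let A : ℕ → C.A (Y.prod Y) := fun i =>
    C.comp (C.comp (ν i) (c • P (N - i))) (ν (2 * n - i))
  let B : ℕ → C.A (Y.prod Y) := fun i =>
    c⁻¹ • C.comp (C.comp (π (2 * N - (2 * n - i))) (g (2 * n - i))) (π (2 * n - i))
  have hppc : pp C f = c • P r := pp_of_push hf
  -- absorption
  have hνπ : ∀ i ≤ 2 * n, i ≠ n → C.comp (ν i) (π i) = ν i := fun i a b => h.right i a b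
  have hπν : ∀ i ≤ 2 * n, i ≠ n → C.comp (π (i + 2 * r)) (ν i) = ν i := fun i a b => h.left i a b
  have hlow : ∀ i < n, C.comp (pp C f) (ν i) = π i := fun i hi => pp_inv_low h hL hi
  have hhigh : ∀ i ≤ 2 * n, n < i → C.comp (ν i) (pp C f) = π (i + 2 * r) :=
    fun i a b => h.high i a b
  have hself : ∀ i ≤ 2 * n, i ≠ n → C.comp (C.comp (ν i) (pp C f)) (ν i) = ν i :=
    fun i a b => h.self a b
  have e2N : ∀ i, i ≤ 2 * n → n < i → 2 * N - (2 * n - i) = i + 2 * r := by
    intro i a b; omega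
  have hBπ : ∀ i, C.comp (B i) (π (2 * n - i)) = B i := by
    intro i
    simp only [B]
    rw [smul_comp', comp_assoc C _ (π (2 * n - i)), hidem]
  have hπB : ∀ i ≤ 2 * n, n < i → C.comp (π (i + 2 * r)) (B i) = B i := by
    intro i a b
    simp only [B]
    rw [comp_smul', e2N i a b, ← comp_assoc C, ← comp_assoc C, hidem]
  have hνA : ∀ i < n, C.comp (C.comp (ν i) (pp C f)) (A i) = A i := by
    intro i hi
    simp only [A]
    rw [← comp_assoc C, ← comp_assoc C, hself i (by omega) (by omega)]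
  have hAν : ∀ i < n, C.comp (A i) (pp C f) = C.comp (C.comp (ν i) (c • P (N - i))) (π (2 * N - i)) := by
    intro i hi
    simp only [A]
    rw [comp_assoc C, hhigh (2 * n - i) (by omega) (by omega)]
    congr 2
    omega
  let w : ℕ → C.A (X.prod X) := fun i =>
    if i < n then sand f (A i) else if i = n then pr f ν n else if i ≤ 2 * n then sand f (B i) else 0
  have wlow : ∀ i, i < n → w i = sand f (A i) := fun i hi => if_pos hi
  have wmid : w n = pr f ν n := by
    simp only [w]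
    rw [if_neg (by omega)]
    simp
  have whigh : ∀ i, n < i → i ≤ 2 * n → w i = sand f (B i) := by
    intro i h1 h2
    simp only [w]
    rw [if_neg (by omega), if_neg (by omega), if_pos h2]
  have hpidem : C.comp (pr f ν n) (pr f ν n) = pr f ν n := by
    have h1 := pr_orth h hL horth n n
    rwa [if_pos rfl] at h1
  have prs : ∀ i ≤ 2 * n, i ≠ n → pr f ν i = sand f (ν i) := fun i a b => pr_of f ν a b
  refine ⟨w, ⟨?_, ?_, ?_, ?_, ?_⟩⟩
  · -- degrees
    intro i hi
    rcases lt_trichotomy i n with h1 | h1 | h1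
    · rw [wlow i h1]
      have hPm : c • P (N - i) ∈ C.gr (Y.prod Y) ((N : ℤ) + ((N - i : ℕ) : ℤ)) :=
        Submodule.smul_mem _ _ (corPow_mem hmem (N - i))
      have hA : A i ∈ C.gr (Y.prod Y) ((N : ℤ) + (-(r : ℤ) + ((N - i : ℕ) : ℤ) + -(r : ℤ))) :=
        comp_mem C (comp_mem C (h.deg i hi (by omega)) hPm) (h.deg (2 * n - i) (by omega) (by omega))
      have h2 := sand_mem' f hr hA
      have e : (X.dim : ℤ) + (-(r : ℤ) + ((N - i : ℕ) : ℤ) + -(r : ℤ) + r) = 2 * (X.dim : ℤ) - i := by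
        rw [Nat.cast_sub (by omega), ← hn]
        have : (N : ℤ) = n + r := by exact_mod_cast hr
        rw [this]; ring
      rw [e] at h2
      exact h2
    · subst h1
      rw [wmid]
      have h2 : pr f ν n ∈ C.gr (X.prod X) X.dim := by
        rw [hn, pr_mid]
        refine Submodule.sub_mem _ (dg_mem C X) (Submodule.sum_mem _ fun j hj => ?_)
        exact sand_mem f hr (h.deg j (mem_er.1 hj).1 (mem_er.1 hj).2)
      have e : 2 * (X.dim : ℤ) - (n : ℤ) = X.dim := by rw [← hn]; ring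
      rw [TheoryData.Deg, e]
      exact h2
    · rw [whigh i h1 hi]
      have h1g : g (2 * n - i) ∈ C.gr (Y.prod Y) ((N : ℤ) + (2 * (n : ℤ) - i - N)) := by
        have e : (N : ℤ) + (2 * (n : ℤ) - i - N) = ((2 * n - i : ℕ) : ℤ) := by
          rw [Nat.cast_sub hi]; push_cast; ring
        rw [e]
        exact (hg (2 * n - i) (by omega)).1
      have hB : B i ∈ C.gr (Y.prod Y) ((N : ℤ) + (0 + (2 * (n : ℤ) - i - N) + 0)) :=
        Submodule.smul_mem _ _ (comp_mem C (comp_mem C (hdeg' _) h1g) (hdeg' _))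
      have h2 := sand_mem' f hr hB
      have e : (X.dim : ℤ) + (0 + (2 * (n : ℤ) - i - N) + 0 + r) = 2 * (X.dim : ℤ) - i := by
        have : (N : ℤ) = n + r := by exact_mod_cast hr
        rw [this, ← hn]; ring
      rw [e] at h2
      exact h2
  · intro i hi
    simp only [w]
    rw [if_neg (by omega), if_neg (by omega), if_neg (by omega)]
  · intro i hi
    rcases lt_trichotomy i n with h1 | h1 | h1
    · rw [wlow i h1, prs i hi (by omega), sand_sand, hνA i h1]
    · rw [h1, wmid, hpidem]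
    · rw [whigh i h1 hi, prs i hi (by omega), sand_sand, hhigh i hi h1, hπB i hi h1]
  · intro i hi
    rcases lt_trichotomy i n with h1 | h1 | h1
    · rw [wlow i h1, prs (2 * n - i) (by omega) (by omega), sand_sand]
      simp only [A]
      congr 1
      rw [comp_assoc C _ (ν (2 * n - i)) (pp C f), comp_assoc C _ _ (ν (2 * n - i)),
        hself (2 * n - i) (by omega) (by omega)]
    · have e : 2 * n - i = n := by omega
      rw [e, h1, wmid, hpidem]
    · rw [whigh i h1 hi, prs (2 * n - i) (by omega) (by omega), sand_sand, comp_assoc C,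
        hlow (2 * n - i) (by omega), hBπ]
  · intro i hi
    rcases lt_trichotomy i n with h1 | h1 | h1
    · rw [wlow i h1, whigh (2 * n - i) (by omega) (by omega), sand_sand, hAν i h1,
        prs i hi (by omega)]
      congr 1
      have e3 : 2 * n - (2 * n - i) = i := by omega
      simp only [B]
      rw [e3]
      simp only [comp_smul', smul_comp', smul_smul, inv_mul_cancel₀ hc, one_smul]
      have e4 : C.comp (C.comp (C.comp (ν i) (P (N - i))) (π (2 * N - i)))
          (C.comp (C.comp (π (2 * N - i)) (g i)) (π i)) =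
          C.comp (C.comp (ν i) (C.comp (P (N - i)) (C.comp (C.comp (π (2 * N - i)) (π (2 * N - i))) (g i)))) (π i) := by
        simp only [comp_assoc C]
      rw [e4, hidem]
      have e5 : C.comp (ν i) (C.comp (P (N - i)) (C.comp (π (2 * N - i)) (g i))) =
          C.comp (ν i) (C.comp (C.comp (π i) (P (N - i))) (g i)) := by
        rw [hhom i (N - i)]
        have e6 : i + 2 * (N - i) = 2 * N - i := by omega
        rw [e6]
        simp only [comp_assoc C]
      rw [e5, (hg i (by omega)).2.1, hνπ i hi (by omega), hνπ i hi (by omega)]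
    · have e : 2 * n - i = n := by omega
      rw [e, h1, wmid, hpidem]
    · rw [whigh i h1 hi, wlow (2 * n - i) (by omega), sand_sand, prs i hi (by omega)]
      congr 1
      have e3 : 2 * n - (2 * n - i) = i := by omega
      simp only [A]
      rw [e3]
      have e4 : C.comp (C.comp (B i) (pp C f)) (C.comp (C.comp (ν (2 * n - i)) (c • P (N - (2 * n - i)))) (ν i)) =
          C.comp (C.comp (C.comp (B i) (C.comp (pp C f) (ν (2 * n - i)))) (c • P (N - (2 * n - i)))) (ν i) := by
        simp only [comp_assoc C]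
      rw [e4, hlow (2 * n - i) (by omega), hBπ]
      simp only [B]
      simp only [comp_smul', smul_comp', smul_smul, mul_inv_cancel₀ hc, one_smul]
      have e5 : C.comp (C.comp (C.comp (π (2 * N - (2 * n - i))) (g (2 * n - i))) (π (2 * n - i)))
          (P (N - (2 * n - i))) = π (2 * N - (2 * n - i)) := by
        rw [comp_assoc C, hhom, ← comp_assoc C, (hg (2 * n - i) (by omega)).2.2]
        have e6 : 2 * n - i + 2 * (N - (2 * n - i)) = 2 * N - (2 * n - i) := by omega
        rw [e6, hidem]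
      rw [e5, e2N i hi h1, hπν i hi (by omega)]

end chow

section weil

variable {C : TheoryData.{u, v, 0} 𝒱 ℚ} [hC : IsChowProj C] {K : Type w} [Field K]
  {H : WeilTheoryData.{u, v, w} C K} [hH : IsWeilProj H] {X Y Z : 𝒱.Obj}

include hC hH

theorem HasSymmetricCK.prod (hX : HasSymmetricCK H X) (hZ : HasSymmetricCK H Z) :
    HasSymmetricCK H (X.prod Z) := by
  obtain ⟨π, w, hπ, hs⟩ := hX
  obtain ⟨ρ, t, hρ, ht⟩ := hZ
  exact ⟨prodCK C π ρ, prodCK C w t, hπ.prod hρ, hs.prod ht hπ.comp_eq hρ.comp_eq hπ.out hρ.out⟩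

theorem hasSymmetricCK_of_lefschetz {L : C.A (X.prod X)} (hL : C.Deg ((X.dim : ℤ) + 1) L)
    (h : ∃ π, IsCK H X π ∧ MotivicLefschetz C L π) : HasSymmetricCK H X := by
  obtain ⟨π, hπ, hM⟩ := h
  obtain ⟨w, hw⟩ := symmetric_of_lefschetz hL hπ.deg hπ.idem hM
  exact ⟨π, w, hπ, hw⟩

theorem hasSymmetricCK_section {f : X ⟶ Y} {r : ℕ} {D : C.A Y} (hD : C.Deg 1 D)
    {c : ℚ} (hc : c ≠ 0) (hr : Y.dim = X.dim + r) (hf : C.push f 1 = c • D ^ r)
    (hO : OntoBelow H f) (h : ∃ π, IsCK H Y π ∧ MotivicLefschetz C (C.mulCorr D) π) :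
    HasSymmetricCK H X := by
  obtain ⟨π, hπ, hM⟩ := h
  obtain ⟨ν, hν, hL, -⟩ := exists_partInv hD hc hr hf hπ hM
  obtain ⟨w, hw⟩ := symmetric_pr hD hc hr hf hM hπ.idem hπ.orth hπ.deg hν hL
  exact ⟨pr f ν, w, isCK_pr hr hπ hO hν hL, hw⟩

end weil

end Pool.Agent.U840.SY
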