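import Pool.Agent.TH133.Hyper
import Pool.Agent.U840.SY.Sect

/-!
# Curves
-/

set_option autoImplicit false

open CategoryTheory AlgebraicGeometry

universe u v w

namespace Pool.Agent.U840.SY

open Pool.Agent.H914 Pool.Agent.H914.VarClass Pool.Agent.H914.VarClass.Obj Pool.Agent.W492.BB
  Pool.Agent.W550.Corr Pool.Agent.TH133 Pool.Agent.Y107 Pool.Agent.Q73.LS

set_option linter.unusedSectionVars false

variable {k : Type u} [Field k] {𝒱 : VarClass k}

section weil

variable {C : TheoryData.{u, v, 0} 𝒱 ℚ} [hC : IsChowProj C] {K : Type w} [Field K]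
  {H : WeilTheoryData.{u, v, w} C K} [hH : IsWeilProj H] {X Y Z : 𝒱.Obj}

include hC hH

omit hC in
lemma chow_one_ne_zero (X : 𝒱.Obj) : (1 : C.A X) ≠ 0 := by
  intro h
  have h4 : (1 : H.A X) = 0 := by rw [← map_one H.cl, h, map_zero]
  exact hH.one_ne_zero X h4

variable (H) in
/-- a zero-cycle of degree one -/
lemma exists_point (X : 𝒱.Obj) :
    ∃ e : C.A X, C.Deg X.dim e ∧ HasDegree C e 1 := by
  obtain ⟨h, hh, q, hq, hq'⟩ := hC.polarized X
  have hpow : ∀ m : ℕ, h ^ m ∈ C.gr X m := by
    intro m
    induction m with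
    | zero => rw [pow_zero]; exact C.one_mem X
    | succ m ih =>
      rw [pow_succ]
      have h1 := C.mul_mem ih hh
      have e1 : (m : ℤ) + 1 = ((m + 1 : ℕ) : ℤ) := by push_cast; ring
      rw [e1] at h1
      exact h1
  have hm : h ^ X.dim ∈ C.gr X X.dim := hpow X.dim
  obtain ⟨q', hdeg⟩ := exists_hasDegree hm
  have e1 : q' = q := by
    have h1 := (hdeg X).1
    have h2 : C.push (snd X X) (C.pull (fst X X) (h ^ X.dim)) = q • (1 : C.A X) := hq'
    rw [h2] at h1
    by_contra hne
    have h5 : (q - q') • (1 : C.A X) = 0 := by rw [sub_smul, h1, sub_self]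
    have h3 : (1 : C.A X) = 0 := by
      rw [← one_smul ℚ (1 : C.A X), ← inv_mul_cancel₀ (sub_ne_zero.2 (Ne.symm hne)), mul_smul, h5,
        smul_zero]
    exact chow_one_ne_zero (H := H) X h3
  refine ⟨q⁻¹ • h ^ X.dim, Submodule.smul_mem _ _ hm, fun Y => ⟨?_, ?_⟩⟩
  · rw [map_smul, map_smul, (hdeg Y).1, e1, smul_smul, inv_mul_cancel₀ hq]
  · rw [map_smul, map_smul, (hdeg Y).2, e1, smul_smul, inv_mul_cancel₀ hq]

/-- Curves have symmetric Chow-Kunneth decompositions. -/
theorem hasSymmetricCK_curve {T : 𝒱.Obj} (hT : T.dim = 1) : HasSymmetricCK H T := by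
  obtain ⟨e, he, hd⟩ := exists_point H T
  rw [hT] at he
  have he' : e ∈ C.gr T 1 := he
  have h1e : HasDegree C (1 * e) 1 := by rw [one_mul]; exact hd
  have he1 : HasDegree C (e * 1) 1 := by rw [mul_one]; exact hd
  have hee0 : e * e = 0 := by
    have h1 := C.mul_mem he' he'
    exact hC.gr_top T _ _ h1 (by rw [hT]; norm_num)
  have hee : HasDegree C (e * e) 0 := by rw [hee0]; exact hasDegree_zero
  have h11 : HasDegree C ((1 : C.A T) * 1) 0 := by
    intro Y
    constructor
    · rw [mul_one, zero_smul, map_one (C.pull (fst T Y))]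
      have h2 := C.push_mem (snd T Y) (C.one_mem (T.prod Y))
      rw [C.gr_neg Y _ (by rw [dim_prod, hT]; push_cast; omega)] at h2
      exact (Submodule.mem_bot _).1 h2
    · rw [mul_one, zero_smul, map_one (C.pull (snd Y T))]
      have h2 := C.push_mem (fst Y T) (C.one_mem (Y.prod T))
      rw [C.gr_neg Y _ (by rw [dim_prod, hT]; push_cast; omega)] at h2
      exact (Submodule.mem_bot _).1 h2
  have hone : (1 : C.A T) ∈ C.gr T 0 := C.one_mem T
  set p0 : C.A (T.prod T) := C.ext e 1 with hp0
  set p2 : C.A (T.prod T) := C.ext 1 e with hp2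
  have m0 : p0 ∈ C.gr (T.prod T) T.dim := by
    have h := ext_mem' he' hone
    rw [hT]
    have e1 : (1 : ℤ) + 0 = ((1 : ℕ) : ℤ) := by norm_num
    rw [e1] at h; exact h
  have m2 : p2 ∈ C.gr (T.prod T) T.dim := by
    have h := ext_mem' hone he'
    rw [hT]
    have e1 : (0 : ℤ) + 1 = ((1 : ℕ) : ℤ) := by norm_num
    rw [e1] at h; exact h
  have c00 : C.comp p0 p0 = p0 := by rw [hp0, comp_ext_ext h1e, one_smul]
  have c22 : C.comp p2 p2 = p2 := by rw [hp2, comp_ext_ext he1, one_smul]
  have c02 : C.comp p0 p2 = 0 := by rw [hp0, hp2, comp_ext_ext h11, zero_smul]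
  have c20 : C.comp p2 p0 = 0 := by rw [hp0, hp2, comp_ext_ext hee, zero_smul]
  set p1 : C.A (T.prod T) := dg C T - p0 - p2 with hp1
  have m1 : p1 ∈ C.gr (T.prod T) T.dim :=
    Submodule.sub_mem _ (Submodule.sub_mem _ (dg_mem C T) m0) m2
  have c01 : C.comp p0 p1 = 0 := by
    rw [hp1, comp_sub, comp_sub, comp_dg, c00, c02, sub_self, sub_zero]
  have c21 : C.comp p2 p1 = 0 := by
    rw [hp1, comp_sub, comp_sub, comp_dg, c22, c20, sub_zero, sub_self]
  have c10 : C.comp p1 p0 = 0 := by
    rw [hp1, sub_comp, sub_comp, dg_comp, c00, c20, sub_self, sub_zero]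
  have c12 : C.comp p1 p2 = 0 := by
    rw [hp1, sub_comp, sub_comp, dg_comp, c02, c22, sub_zero, sub_self]
  have c11 : C.comp p1 p1 = p1 := by
    conv_lhs => rw [hp1]
    rw [sub_comp, sub_comp, dg_comp, c01, c21, sub_zero, sub_zero]
  -- actions on cohomology
  have a0 : ∀ (m : ℤ) (a : H.A T), a ∈ H.gr T m → H.act (H.cl p0) a = if m = 0 then a else 0 := by
    intro m a ha
    split_ifs with hm
    · subst hm
      obtain ⟨c, rfl⟩ := hH.gr_zero T a ha
      rw [act_map_smul]
      congr 1
      have h1 : C.act p0 1 = 1 := by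
        rw [hp0, act_ext' he1, one_smul]
      have h2 := congrArg H.cl h1
      rwa [cl_act H, map_one] at h2
    · rw [hp0]
      refine act_ext_ne (r := 0) (by exact_mod_cast hone) ?_ (by simpa using hm) ha
      rw [hT]
      simpa using he'
  have a2 : ∀ (m : ℤ) (a : H.A T), a ∈ H.gr T m → H.act (H.cl p2) a = if m = 2 then a else 0 := by
    intro m a ha
    split_ifs with hm
    · subst hm
      rw [← sub_eq_zero]
      apply H.nondeg
      have hlin : H.tr T ∘ₗ LinearMap.mulLeft K (H.act (H.cl p2) a) =
          H.tr T ∘ₗ LinearMap.mulLeft K a := by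
        apply ext_gr H
        intro m' b hb
        rw [LinearMap.comp_apply, LinearMap.comp_apply, LinearMap.mulLeft_apply,
          LinearMap.mulLeft_apply]
        have h3 : p2 = tp C p0 := by rw [hp0, hp2, tp_ext]
        rw [h3, tr_act' H, a0 m' b hb]
        split_ifs with h4
        · rfl
        · rw [mul_zero, map_zero]
          exact (tr_zero H (H.mul_mem ha hb) (by rw [hT]; push_cast; omega)).symm
      intro b
      have h3 := LinearMap.congr_fun hlin b
      rw [LinearMap.comp_apply, LinearMap.comp_apply, LinearMap.mulLeft_apply,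
        LinearMap.mulLeft_apply] at h3
      rw [sub_mul, map_sub, h3, sub_self]
    · rw [hp2]
      refine act_ext_ne (r := 1) (by exact_mod_cast he') ?_ (by simpa using hm) ha
      rw [hT]
      simpa using hone
  have a1 : ∀ (m : ℤ) (a : H.A T), a ∈ H.gr T m → H.act (H.cl p1) a = if m = 1 then a else 0 := by
    intro m a ha
    rw [hp1, map_sub, map_sub, H.act_sub, H.act_sub, actH_dg, a0 m a ha, a2 m a ha]
    by_cases ha0 : a = 0
    · rw [ha0]; simp
    have hm0 := nonneg_of_mem H ha ha0
    have hm2 : m ≤ 2 := by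
      by_contra h3
      rw [gr_top (H := H) (by rw [hT]; push_cast; omega)] at ha
      exact ha0 ((Submodule.mem_bot _).1 ha)
    obtain rfl | rfl | rfl : m = 0 ∨ m = 1 ∨ m = 2 := by omega
    · simp
    · simp
    · simp
  let π : ℕ → C.A (T.prod T) := fun i => match i with
    | 0 => p0
    | 1 => p1
    | 2 => p2
    | _ + 3 => 0
  let w : ℕ → C.A (T.prod T) := fun i => match i with
    | 0 => C.ext e e
    | 1 => p1
    | 2 => C.ext 1 1
    | _ + 3 => 0
  have hout : ∀ i, 2 < i → π i = 0 := by
    intro i hi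
    obtain ⟨j, rfl⟩ := Nat.exists_eq_add_of_le (show 3 ≤ i by omega)
    rw [Nat.add_comm]
  have hwout : ∀ i, 2 < i → w i = 0 := by
    intro i hi
    obtain ⟨j, rfl⟩ := Nat.exists_eq_add_of_le (show 3 ≤ i by omega)
    rw [Nat.add_comm]
  have hck : IsCK H T π := by
    refine ⟨?_, ?_, ?_, ?_, ?_, ?_, ?_⟩
    · intro i
      match i with
      | 0 => exact m0
      | 1 => exact m1
      | 2 => exact m2
      | _ + 3 => exact Submodule.zero_mem _
    · intro i hi
      exact hout i (by rw [hT] at hi; omega)
    · intro i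
      match i with
      | 0 => exact c00
      | 1 => exact c11
      | 2 => exact c22
      | _ + 3 => exact comp_zero C _
    · intro i j hij
      match i, j, hij with
      | 0, 0, h => exact absurd rfl h
      | 0, 1, _ => exact c01
      | 0, 2, _ => exact c02
      | 1, 0, _ => exact c10
      | 1, 1, h => exact absurd rfl h
      | 1, 2, _ => exact c12
      | 2, 0, _ => exact c20
      | 2, 1, _ => exact c21
      | 2, 2, h => exact absurd rfl h
      | _ + 3, j, _ => exact zero_comp C _
      | i, _ + 3, _ => exact comp_zero C _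
    · rw [hT]
      change ∑ i ∈ Finset.range 3, π i = dg C T
      rw [Finset.sum_range_succ, Finset.sum_range_succ, Finset.sum_range_one]
      change p0 + p1 + p2 = dg C T
      rw [hp1]; abel
    · intro i a ha
      match i with
      | 0 => exact (a0 _ a ha).trans (by simp)
      | 1 => exact (a1 _ a ha).trans (by simp)
      | 2 => exact (a2 _ a ha).trans (by simp)
      | j + 3 =>
        change H.act (H.cl (0 : C.A (T.prod T))) a = a
        rw [actH_zero]
        have ha' : a ∈ H.gr T ((j + 3 : ℕ) : ℤ) := ha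
        rw [gr_top (H := H) (by rw [hT]; push_cast; omega)] at ha'
        exact ((Submodule.mem_bot _).1 ha').symm
    · intro i m a hm ha
      match i with
      | 0 => exact (a0 _ a ha).trans (if_neg (by simpa using hm))
      | 1 => exact (a1 _ a ha).trans (if_neg (by simpa using hm))
      | 2 => exact (a2 _ a ha).trans (if_neg (by simpa using hm))
      | j + 3 => exact actH_zero H a
  refine ⟨π, w, hck, ⟨?_, ?_, ?_, ?_, ?_⟩⟩
  · intro i hi
    rw [hT] at hi ⊢
    match i with
    | 0 =>
      have h := ext_mem' he' he'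
      change C.ext e e ∈ C.gr _ _
      convert h using 2
      norm_num
    | 1 =>
      change p1 ∈ C.gr _ _
      have h := m1
      rw [hT] at h
      convert h using 2
      norm_num
    | 2 =>
      have h := ext_mem' hone hone
      change C.ext 1 1 ∈ C.gr _ _
      convert h using 2
      norm_num
    | j + 3 => exact Submodule.zero_mem _
  · intro i hi
    exact hwout i (by rw [hT] at hi; omega)
  · intro i hi
    match i with
    | 0 => exact (comp_ext_ext h1e).trans (one_smul _ _)
    | 1 => exact c11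
    | 2 => exact (comp_ext_ext he1).trans (one_smul _ _)
    | j + 3 => exact zero_comp C _
  · intro i hi
    rw [hT] at hi ⊢
    match i with
    | 0 => exact (comp_ext_ext he1).trans (one_smul _ _)
    | 1 => exact c11
    | 2 => exact (comp_ext_ext h1e).trans (one_smul _ _)
    | j + 3 => omega
  · intro i hi
    rw [hT] at hi ⊢
    match i with
    | 0 => exact (comp_ext_ext he1).trans (one_smul _ _)
    | 1 => exact c11
    | 2 => exact (comp_ext_ext h1e).trans (one_smul _ _)
    | j + 3 => omega

end weil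

end Pool.Agent.U840.SY
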